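import Pool.Agent.N777.Aff.Surf

/-!
# Domination of the surface areas of all affine images does not imply domination of the volumes

`C₁` is the truncated octahedron `|x_i| ≤ 12`, `|x_1| + |x_2| + |x_3| ≤ 18`, `C₂` the octahedron
`|x_1| + |x_2| + |x_3| ≤ 17`. The surface areas of the affine images are sums of norms of linear combinations of the
three cofactor vectors, and the comparison is Hlawka's inequality in `ℝ³`.
-/

set_option autoImplicit false

open MeasureTheory Set
open scoped ENNReal

namespace Pool.Agent.Results.MP_8228af_gt.DominationFails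

/-- Euclidean space `ℝⁿ`. -/
abbrev E (n : ℕ) : Type := EuclideanSpace ℝ (Fin n)

/-- A convex body: a compact convex set with nonempty interior. -/
def IsConvexBody {n : ℕ} (K : Set (E n)) : Prop := IsCompact K ∧ Convex ℝ K ∧ (interior K).Nonempty

/-- `K` is centrally symmetric: `K - x = -(K - x)` for some `x`. -/
def IsCentrallySymmetric {n : ℕ} (K : Set (E n)) : Prop := ∃ x : E n, ∀ y : E n, x + y ∈ K ↔ x - y ∈ K

/-- The surface area: the `(n - 1)`-dimensional Hausdorff measure of the boundary (normalised so that it agrees with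
Lebesgue measure on hyperplanes). -/
noncomputable def surfaceArea {n : ℕ} (K : Set (E n)) : ℝ≥0∞ := μHE[n - 1] (frontier K)

/-- `C₂` dominates `C₁` in affine surface area: `S(A(C₁)) ≤ S(A(C₂))` for every nonsingular affine map `A`. -/
def Dominates {n : ℕ} (C₂ C₁ : Set (E n)) : Prop :=
  ∀ A : E n ≃ᵃ[ℝ] E n, surfaceArea (A '' C₁) ≤ surfaceArea (A '' C₂)

/-- There are centrally symmetric convex bodies `C₁, C₂` in `ℝ³` such that `C₂` dominates `C₁` in affine surface area,
but the volume of `C₁` is larger than the volume of `C₂`. -/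
theorem result : ∃ C₁ C₂ : Set (E 3), IsConvexBody C₁ ∧ IsConvexBody C₂ ∧
    IsCentrallySymmetric C₁ ∧ IsCentrallySymmetric C₂ ∧ Dominates C₂ C₁ ∧ volume C₂ < volume C₁ := by
  refine ⟨Pool.Agent.N777.Aff.Tru, Pool.Agent.N777.Aff.Oct 17,
    ⟨Pool.Agent.N777.Aff.tru_compact, Pool.Agent.N777.Aff.tru_convex, Pool.Agent.N777.Aff.tru_interior⟩,
    ⟨Pool.Agent.N777.Aff.oct_compact 17, Pool.Agent.N777.Aff.oct_convex 17, Pool.Agent.N777.Aff.oct_interior⟩,
    ⟨0, fun y => ?_⟩, ⟨0, fun y => ?_⟩, fun A => Pool.Agent.N777.Aff.surf_le A, Pool.Agent.N777.Aff.vol_lt⟩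
  · rw [zero_add, zero_sub]
    constructor
    · exact Pool.Agent.N777.Aff.tru_neg
    · intro h
      have := Pool.Agent.N777.Aff.tru_neg h
      rwa [neg_neg] at this
  · rw [zero_add, zero_sub]
    constructor
    · exact Pool.Agent.N777.Aff.oct_neg
    · intro h
      have := Pool.Agent.N777.Aff.oct_neg h
      rwa [neg_neg] at this

end Pool.Agent.Results.MP_8228af_gt.DominationFails
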